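import Pool.Agent.Helper3.HS2.GSlice

/-!
# Averages over the p-adic integers
-/

set_option autoImplicit false
set_option linter.unusedSectionVars false
set_option linter.unusedVariables false

open Set MeasureTheory Metric Filter Topology
open scoped NNReal ENNReal

namespace Pool.Agent.Helper3.HS

section haar

variable {p : ℕ} [hp : Fact p.Prime] [MeasurableSpace ℤ_[p]] [BorelSpace ℤ_[p]]
  {ν : Measure ℤ_[p]} [ν.IsAddHaarMeasure]

theorem mulP_embedding : MeasurableEmbedding (fun a : ℤ_[p] => (p : ℤ_[p]) * a) := by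
  have hc : Continuous (fun a : ℤ_[p] => (p : ℤ_[p]) * a) := by fun_prop
  have hi : Function.Injective (fun a : ℤ_[p] => (p : ℤ_[p]) * a) := by
    intro a b hab
    have hp0 : (p : ℤ_[p]) ≠ 0 := by exact_mod_cast hp.out.ne_zero
    exact mul_left_cancel₀ hp0 hab
  exact (hc.isClosedEmbedding hi).measurableEmbedding

/-- The Haar measure and its pull-back under multiplication by `p`. -/
theorem haar_le_comap : ν ≤ (p : ℝ≥0∞) • ν.comap (fun a : ℤ_[p] => (p : ℤ_[p]) * a) := by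
  set φ : ℤ_[p] → ℤ_[p] := fun a => (p : ℤ_[p]) * a with hφ
  have hφe : MeasurableEmbedding φ := mulP_embedding
  set κ := ν.comap φ with hκ
  have hκa : ∀ s, κ s = ν (φ '' s) := fun s => hφe.comap_apply ν s
  have hfin : IsFiniteMeasure ν := inferInstance
  have hκfin : IsFiniteMeasure κ := by
    constructor
    rw [hκa]
    exact measure_lt_top ν _
  have hκinv : κ.IsAddLeftInvariant := by
    constructor
    intro g
    ext s hs
    rw [Measure.map_apply (measurable_const_add g) hs, hκa, hκa]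
    have h1 : φ '' ((fun x => g + x) ⁻¹' s) = (fun x => φ g + x) ⁻¹' (φ '' s) := by
      ext x
      constructor
      · rintro ⟨y, hy, rfl⟩
        exact ⟨g + y, hy, by simp only [hφ]; ring⟩
      · rintro ⟨z, hz, hzx⟩
        refine ⟨z - g, ?_, ?_⟩
        · rw [mem_preimage, add_sub_cancel]
          exact hz
        · simp only [hφ] at hzx ⊢
          rw [mul_sub, hzx]
          ring
    rw [h1, measure_preimage_add]
  have hc := Measure.isAddInvariant_eq_smul_of_compactSpace κ ν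
  set c : ℝ≥0 := Measure.addHaarScalarFactor κ ν with hcdef
  -- the total mass
  have hmass : ν univ ≤ p * κ univ := by
    have hcov : (univ : Set ℤ_[p]) ⊆ ⋃ j ∈ Finset.range p,
        (fun x => -(j : ℤ_[p]) + x) ⁻¹' (φ '' univ) := by
      intro a _
      have h1 := PadicInt.appr_lt a 1
      have h2 := PadicInt.appr_spec 1 a
      rw [pow_one] at h1 h2
      rw [Ideal.mem_span_singleton] at h2
      obtain ⟨b, hb⟩ := h2
      refine mem_iUnion₂.mpr ⟨a.appr 1, Finset.mem_range.mpr h1, b, mem_univ _, ?_⟩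
      simp only [hφ]
      rw [← hb]
      ring
    calc ν univ ≤ ν (⋃ j ∈ Finset.range p, (fun x => -(j : ℤ_[p]) + x) ⁻¹' (φ '' univ)) :=
          measure_mono hcov
      _ ≤ ∑ j ∈ Finset.range p, ν ((fun x => -(j : ℤ_[p]) + x) ⁻¹' (φ '' univ)) :=
          measure_biUnion_finset_le _ _
      _ = p * κ univ := by
          rw [hκa]
          simp_rw [measure_preimage_add]
          rw [Finset.sum_const, Finset.card_range, nsmul_eq_mul]
  have hν0 : ν univ ≠ 0 := by
    rw [Ne, Measure.measure_univ_eq_zero]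
    exact NeZero.ne ν
  have hνt : ν univ ≠ ∞ := measure_ne_top ν _
  have h1c : 1 ≤ (p : ℝ≥0∞) * c := by
    rw [hc, Measure.smul_apply, ENNReal.smul_def, smul_eq_mul, ← mul_assoc] at hmass
    by_contra hlt
    rw [not_le] at hlt
    have h2 : (p : ℝ≥0∞) * c * ν univ < 1 * ν univ :=
      ENNReal.mul_lt_mul_left hν0 hνt hlt
    rw [one_mul] at h2
    exact absurd hmass (not_le.mpr h2)
  rw [Measure.le_iff]
  intro s hs
  rw [hc, Measure.smul_apply, Measure.smul_apply, ENNReal.smul_def, smul_eq_mul, smul_eq_mul,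
    ← mul_assoc]
  calc ν s = 1 * ν s := (one_mul _).symm
    _ ≤ _ := mul_le_mul' h1c le_rfl

theorem lintegral_mul_le (f : ℤ_[p] → ℝ≥0∞) :
    ∫⁻ a, f (p * a) ∂ν ≤ p * ∫⁻ a, f a ∂ν := by
  set φ : ℤ_[p] → ℤ_[p] := fun a => (p : ℤ_[p]) * a with hφ
  have hφe : MeasurableEmbedding φ := mulP_embedding
  calc ∫⁻ a, f (φ a) ∂ν ≤ ∫⁻ a, f (φ a) ∂((p : ℝ≥0∞) • ν.comap φ) :=
        lintegral_mono' haar_le_comap le_rfl
    _ = p * ∫⁻ a, f (φ a) ∂(ν.comap φ) := by rw [lintegral_smul_measure, smul_eq_mul]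
    _ = p * ∫⁻ a, f a ∂((ν.comap φ).map φ) := by rw [hφe.lintegral_map]
    _ = p * ∫⁻ a in range φ, f a ∂ν := by rw [hφe.map_comap]
    _ ≤ p * ∫⁻ a, f a ∂ν := by gcongr; exact Measure.restrict_le_self

theorem lintegral_mul_add_le (f : ℤ_[p] → ℝ≥0∞) (c : ℤ_[p]) :
    ∫⁻ a, f (p * a + c) ∂ν ≤ p * ∫⁻ a, f a ∂ν := by
  have h1 := lintegral_mul_le (ν := ν) (fun a => f (a + c))
  rwa [lintegral_add_right_eq_self (μ := ν) f c] at h1

theorem lintegral_pow_mul_le (f : ℤ_[p] → ℝ≥0∞) (k : ℕ) :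
    ∫⁻ a, f ((p : ℤ_[p]) ^ k * a) ∂ν ≤ (p : ℝ≥0∞) ^ k * ∫⁻ a, f a ∂ν := by
  induction k with
  | zero => simp
  | succ k ih =>
    have h1 := lintegral_mul_le (ν := ν) (fun a => f ((p : ℤ_[p]) ^ k * a))
    have e1 : ∀ a : ℤ_[p], (p : ℤ_[p]) ^ (k + 1) * a = (p : ℤ_[p]) ^ k * (p * a) := by
      intro a; ring
    simp_rw [e1]
    refine h1.trans ?_
    rw [pow_succ', mul_assoc]
    gcongr

end haar

section average

variable {d m : ℕ} {A : Type*} [TopologicalSpace A] [CompactSpace A] [MeasurableSpace A]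
  [BorelSpace A] {ν : Measure A} [IsProbabilityMeasure ν]
  {Γ : A → (Fin (d + 1) → ℝ) → (Fin m → ℝ)}

theorem measurable_GV (hΓ : Continuous (fun q : A × (Fin (d + 1) → ℝ) => Γ q.1 q.2))
    (e : ℕ) (u₀ : Fin (d + 1) → ℝ) (r : ℝ) (N : ℕ) :
    Measurable (fun a => GV e (Γ a) u₀ r N) := by
  unfold GV
  apply Finset.measurable_fun_sum
  intro i _
  exact ((lsc_gsum e hΓ u₀ r N i).measurable).lintegral_prod_right'

theorem GV_avg_int {e : ℕ} (hΓ : Continuous (fun q : A × (Fin (d + 1) → ℝ) => Γ q.1 q.2))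
    (u₀ : Fin (d + 1) → ℝ) (r : ℝ) (N : ℕ) :
    GV (e + 1) (fun x => ∫ a, Γ a x ∂ν) u₀ r N ≤ ∫⁻ a, GV (e + 1) (Γ a) u₀ r N ∂ν := by
  have hcell : ∀ i t c, gDiam (fun x => ∫ a, Γ a x ∂ν) u₀ r N i t c ≤
      ∫⁻ a, gDiam (Γ a) u₀ r N i t c ∂ν := by
    intro i t c
    apply Metric.ediam_le
    rintro _ ⟨w, hw, rfl⟩ _ ⟨w', hw', rfl⟩
    refine (gavg_edist hΓ _ _).trans (lintegral_mono fun a => ?_)
    exact Metric.edist_le_ediam_of_mem ⟨w, hw, rfl⟩ ⟨w', hw', rfl⟩
  have hmeas : ∀ i t c, Measurable (fun a => gDiam (Γ a) u₀ r N i t c) := by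
    intro i t c
    have h1 := (lsc_gDiam hΓ u₀ r N i c)
    have h3 : Continuous (fun a : A => (a, t)) := continuous_id.prodMk continuous_const
    have h2 : LowerSemicontinuous (fun a : A => gDiam (Γ a) u₀ r N i t c) := by
      intro a y hy
      exact h3.continuousAt.eventually (h1 (a, t) y hy)
    exact h2.measurable
  unfold GV
  calc ∑ i, ∫⁻ t in Icc (u₀ i - r) (u₀ i + r), ∑ c : Fin d → Fin N,
        gDiam (fun x => ∫ a, Γ a x ∂ν) u₀ r N i t (fun k => (c k : ℕ)) ^ (e + 1)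
      ≤ ∑ i, ∫⁻ t in Icc (u₀ i - r) (u₀ i + r), (∫⁻ a, ∑ c : Fin d → Fin N,
        gDiam (Γ a) u₀ r N i t (fun k => (c k : ℕ)) ^ (e + 1) ∂ν) := by
        apply Finset.sum_le_sum
        intro i _
        apply lintegral_mono
        intro t
        refine le_trans ?_ (lintegral_finsetSum _ (fun c _ => (hmeas i t _).pow_const _)).symm.le
        apply Finset.sum_le_sum
        intro c _
        exact (pow_le_pow_left₀ zero_le (hcell i t _) _).trans (lintegral_pow_le (hmeas i t _) e)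
    _ = ∑ i, ∫⁻ a, (∫⁻ t in Icc (u₀ i - r) (u₀ i + r), ∑ c : Fin d → Fin N,
        gDiam (Γ a) u₀ r N i t (fun k => (c k : ℕ)) ^ (e + 1)) ∂ν := by
        apply Finset.sum_congr rfl
        intro i _
        have h1 := (lsc_gsum (e + 1) hΓ u₀ r N i).measurable
        exact lintegral_lintegral_swap (f := fun (t : ℝ) (a : A) => ∑ c : Fin d → Fin N,
          gDiam (Γ a) u₀ r N i t (fun k => (c k : ℕ)) ^ (e + 1))
          (h1.comp measurable_swap).aemeasurable
    _ = ∫⁻ a, (∑ i, ∫⁻ t in Icc (u₀ i - r) (u₀ i + r), ∑ c : Fin d → Fin N,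
        gDiam (Γ a) u₀ r N i t (fun k => (c k : ℕ)) ^ (e + 1)) ∂ν := by
        rw [lintegral_finsetSum]
        intro i _
        exact ((lsc_gsum (e + 1) hΓ u₀ r N i).measurable).lintegral_prod_right'

end average

end Pool.Agent.Helper3.HS
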