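import Pool.Agent.Helper3.HS2.AvgGood2
import Pool.Agent.Helper94.HS3.Haar3

/-!
# The averaged map and its good neighbourhoods, with a hypothesis along one sequence of scales

Adapted from `Pool.Agent.Helper3.HS2.AvgGood2`.
-/

set_option autoImplicit false
set_option linter.unusedSectionVars false
set_option linter.unusedVariables false

open Set MeasureTheory Metric Filter Topology
open scoped NNReal ENNReal Function

namespace Pool.Agent.Helper3.HS

variable {d : ℕ} {p : ℕ} [hp : Fact p.Prime] [MeasurableSpace ℤ_[p]] [BorelSpace ℤ_[p]]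
  {ν : Measure ℤ_[p]} [ν.IsAddHaarMeasure] [hprob : IsProbabilityMeasure ν]

theorem avg_good3 (D : PreDat (Fin (d + 1) → ℝ) p) {c : Fin (d + 1) → ℝ} {σ : ℝ} (hσ : 0 < σ)
    (hDU : D.U ⊆ closedBall c σ) {Γ : ℤ_[p] → (Fin (d + 1) → ℝ) → (Fin (d + 1) → ℝ)}
    (hΓ : Continuous (fun q : ℤ_[p] × (Fin (d + 1) → ℝ) => Γ q.1 q.2))
    (hΓg : ∀ a b, ∀ u ∈ D.U, Γ a (D.g b u) = Γ (a + b) u)
    (hinj : InjOn (Γ 0) (closedBall c σ))
    (hGV : ∀ η : ℝ≥0∞, 0 < η → ∃ N : ℕ, 0 < N ∧ ∫⁻ a, GV (d + 2) (Γ a) c σ N ∂ν ≤ η) :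
    ∃ F : (Fin (d + 1) → ℝ) → (Fin (d + 1) → ℝ), Continuous F ∧
      (∃ H Z : Set (Fin (d + 1) → ℝ), volume Z = 0 ∧
        (∀ S ⊆ closedBall c σ, Disjoint S H → IsTotallyDisconnected S) ∧
        ∀ y ∉ Z, ∀ u ∈ D.U, F u = y → (∃ a, D.g a u ≠ u) → ∃ P, Good volume D F y H P ∧ u ∈ P) ∧
      (∀ x x' b, (∀ a, Γ a x' = Γ (a + b) x) → F x' = F x) ∧
      (∀ x v δ, (∀ a, dist (Γ a x) v ≤ δ) → dist (F x) v ≤ δ) ∧
      (∀ (ℓ : (Fin (d + 1) → ℝ) →L[ℝ] ℝ) x, (∀ a, 0 < ℓ (Γ a x)) → 0 < ℓ (F x)) := by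
  set F : (Fin (d + 1) → ℝ) → (Fin (d + 1) → ℝ) := fun x => ∫ a, Γ a x ∂ν with hF
  have hinvF : ∀ x x' b, (∀ a, Γ a x' = Γ (a + b) x) → F x' = F x := by
    intro x x' b h
    rw [hF]
    simp only [h]
    exact integral_add_right_eq_self (fun a => Γ a x) b
  have hFinv : ∀ a, ∀ x ∈ D.U, F (D.g a x) = F x := fun b x hx =>
    hinvF x _ b fun a => hΓg a b x hx
  refine ⟨F, gavg_continuous hΓ, ?_, hinvF, ?_, ?_⟩
  · -- the dense sequence
    set qs : ℕ → (Fin (d + 1) → ℝ) := TopologicalSpace.denseSeq (Fin (d + 1) → ℝ) with hqs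
    have hqsd : DenseRange qs := TopologicalSpace.denseRange_denseSeq _
    set S : ℕ → Set (Fin (d + 1) → ℝ) := fun n => range (fun b : ℤ_[p] => Γ (p * b) (qs n)) with hS
    set Γ' : ℕ × ℕ → ℤ_[p] → (Fin (d + 1) → ℝ) → (Fin (d + 2) → ℝ) := fun i a x =>
      Fin.cons (infDist (Γ (p * a + (-(i.2 : ℤ_[p]))) x) (S i.1)) (Γ a x) with hΓ'
    have hΓ'c : ∀ i, Continuous (fun q : ℤ_[p] × (Fin (d + 1) → ℝ) => Γ' i q.1 q.2) := by
      intro i
      apply continuous_pi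
      intro k
      refine Fin.cases ?_ (fun k => ?_) k
      · simp only [hΓ', Fin.cons_zero]
        exact (cont_arg hΓ (S i.1) (-(i.2 : ℤ_[p]))).comp
          (f := fun q : ℤ_[p] × (Fin (d + 1) → ℝ) => (q.2, q.1)) (by fun_prop)
      · simp only [hΓ', Fin.cons_succ]
        exact (continuous_apply k).comp hΓ
    have hGV' : ∀ i, ∀ η : ℝ≥0∞, 0 < η → ∃ N : ℕ, 0 < N ∧
        ∫⁻ a, GV (d + 2) (Γ' i a) c σ N ∂ν ≤ η := by
      intro i η hη
      have hp1 : (1 + p : ℝ≥0∞) ≠ 0 := by simp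
      have hp1t : (1 + p : ℝ≥0∞) ≠ ∞ :=
        ENNReal.add_ne_top.mpr ⟨ENNReal.one_ne_top, ENNReal.natCast_ne_top p⟩
      obtain ⟨N, hN, hle⟩ := hGV (η / (1 + p)) (ENNReal.div_pos hη.ne' hp1t)
      refine ⟨N, hN, ?_⟩
      have h1 : ∀ a, GV (d + 2) (Γ' i a) c σ N ≤
          GV (d + 2) (Γ a) c σ N + GV (d + 2) (Γ (p * a + (-(i.2 : ℤ_[p])))) c σ N := fun a =>
        GV_cons (e := d + 2) (f := Γ a) (h := Γ (p * a + (-(i.2 : ℤ_[p]))))
          (g := fun x => infDist (Γ (p * a + (-(i.2 : ℤ_[p]))) x) (S i.1)) (u₀ := c) (r := σ)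
          (hΓ.comp (continuous_const.prodMk continuous_id)) N
          (fun x z => by
            have := (lipschitz_infDist_pt (S i.1)).edist_le_mul
              (Γ (p * a + (-(i.2 : ℤ_[p]))) x) (Γ (p * a + (-(i.2 : ℤ_[p]))) z)
            rwa [ENNReal.coe_one, one_mul] at this)
      calc ∫⁻ a, GV (d + 2) (Γ' i a) c σ N ∂ν
          ≤ ∫⁻ a, (GV (d + 2) (Γ a) c σ N +
            GV (d + 2) (Γ (p * a + (-(i.2 : ℤ_[p])))) c σ N) ∂ν := lintegral_mono h1
        _ = ∫⁻ a, GV (d + 2) (Γ a) c σ N ∂ν +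
            ∫⁻ a, GV (d + 2) (Γ (p * a + (-(i.2 : ℤ_[p])))) c σ N ∂ν :=
            lintegral_add_left (measurable_GV hΓ _ _ _ _) _
        _ ≤ ∫⁻ a, GV (d + 2) (Γ a) c σ N ∂ν + p * ∫⁻ a, GV (d + 2) (Γ a) c σ N ∂ν := by
            gcongr
            exact lintegral_mul_add_le (fun a => GV (d + 2) (Γ a) c σ N) _
        _ = (1 + p) * ∫⁻ a, GV (d + 2) (Γ a) c σ N ∂ν := by rw [add_mul, one_mul]
        _ ≤ (1 + p) * (η / (1 + p)) := by gcongr
        _ = η := ENNReal.mul_div_cancel hp1 hp1t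
    set Φ : ℕ × ℕ → (Fin (d + 1) → ℝ) → (Fin (d + 2) → ℝ) := fun i x => ∫ a, Γ' i a x ∂ν with hΦ
    have hΦc : ∀ i, Continuous (Φ i) := fun i => gavg_continuous (hΓ'c i)
    have hΦeq : ∀ i x, Φ i x = Fin.cons (lev ν Γ (S i.1) (-(i.2 : ℤ_[p])) x) (F x) := by
      intro i x
      have hint : Integrable (fun a => Γ' i a x) ν := gavg_integrable (hΓ'c i) x
      have hproj : ∀ k, Φ i x k = ∫ a, Γ' i a x k ∂ν := fun k =>
        ((ContinuousLinearMap.proj (R := ℝ) (φ := fun _ : Fin (d + 2) => ℝ) k).integral_comp_comm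
          hint).symm
      have hprojF : ∀ k, F x k = ∫ a, Γ a x k ∂ν := fun k =>
        ((ContinuousLinearMap.proj (R := ℝ) (φ := fun _ : Fin (d + 1) => ℝ) k).integral_comp_comm
          (gavg_integrable hΓ x)).symm
      funext k
      rw [hproj]
      refine Fin.cases ?_ (fun k => ?_) k
      · simp only [hΓ', Fin.cons_zero]
        rfl
      · simp only [hΓ', Fin.cons_succ]
        rw [hprojF]
    obtain ⟨H, Z', hZ', hHZ', hH⟩ := exists_grid hΦc hσ (u₀ := c) (fun i η hη => by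
      obtain ⟨N, hN, hle⟩ := hGV' i η hη
      exact ⟨N, hN, (GV_avg_int (hΓ'c i) c σ N).trans hle⟩)
    have hae := ae_cons hZ'
    refine ⟨H, {y | ¬ ∀ᵐ t ∂(volume : Measure ℝ), (Fin.cons t y : Fin (d + 2) → ℝ) ∉ Z'},
      hae, hH, ?_⟩
    intro y hy u hu heq hm
    have hy' : ∀ᵐ t ∂(volume : Measure ℝ), (Fin.cons t y : Fin (d + 2) → ℝ) ∉ Z' := by
      by_contra hcon
      exact hy hcon
    apply exists_good_set D hDU hΓ hΓg hinj hqsd (ν := ν) _ hFinv hu hm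
    intro n j
    filter_upwards [hy'] with t ht w hw hFw hlev hwH
    apply ht
    have h1 := hHZ' (n, j) w hwH
    rw [hΦeq] at h1
    simp only at h1
    rwa [hFw, hlev] at h1
  · intro x v δ h
    have h1 : (∫ a, Γ a x ∂ν) - v = ∫ a, (Γ a x - v) ∂ν := by
      rw [integral_sub (gavg_integrable hΓ x) (integrable_const v), integral_const]
      simp
    rw [dist_eq_norm, hF]
    simp only
    rw [h1]
    have h2 := norm_integral_le_of_norm_le_const (μ := ν) (f := fun a => Γ a x - v) (C := δ)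
      (ae_of_all _ fun a => by rw [← dist_eq_norm]; exact h a)
    simpa using h2
  · intro ℓ x h
    have hc : Continuous (fun a => ℓ (Γ a x)) :=
      ℓ.continuous.comp (hΓ.comp (continuous_id.prodMk continuous_const))
    obtain ⟨a₀, -, ha₀⟩ := isCompact_univ.exists_isMinOn (univ_nonempty) hc.continuousOn
    have h1 : ℓ (∫ a, Γ a x ∂ν) = ∫ a, ℓ (Γ a x) ∂ν :=
      (ContinuousLinearMap.integral_comp_comm ℓ (gavg_integrable hΓ x)).symm
    rw [hF]
    simp only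
    rw [h1]
    have h2 : ∫ a : ℤ_[p], ℓ (Γ a₀ x) ∂ν ≤ ∫ a, ℓ (Γ a x) ∂ν := by
      apply integral_mono (integrable_const _) (ℓ.integrable_comp (gavg_integrable hΓ x))
      intro a
      exact ha₀ (mem_univ a)
    rw [integral_const] at h2
    have h3 : ν.real univ = 1 := by simp
    rw [h3, one_smul] at h2
    exact (h a₀).trans_le h2

end Pool.Agent.Helper3.HS
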