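import Pool.Agent.Helper3.HS2.Global2
import Pool.Agent.Helper94.HS3.UcLoc3

/-!
# The local theorem, with a hypothesis along one sequence of scales

Adapted from `Pool.Agent.Helper3.HS2.Local2`.
-/

set_option autoImplicit false
set_option linter.unusedSectionVars false
set_option linter.unusedVariables false

open Set MeasureTheory Metric Filter Topology
open scoped NNReal ENNReal

namespace Pool.Agent.Helper3.HS

variable {d : ℕ} {X : Type*} [MetricSpace X] {G : Type*} [Group G] [TopologicalSpace G]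
  [IsTopologicalGroup G] [MulAction G X] [ContinuousSMul G X] {p : ℕ} [hp : Fact p.Prime]
  [MeasurableSpace ℤ_[p]] [BorelSpace ℤ_[p]]
  {μ : Measure ℤ_[p]} [μ.IsAddHaarMeasure] [IsProbabilityMeasure μ]

/-- The core of the local theorem: an action with small displacement and small slice variations
is trivial on a smaller ball. -/
theorem local_core3 (e : OpenPartialHomeomorph X (Fin (d + 1) → ℝ)) {u₀ : Fin (d + 1) → ℝ}
    {r₁ : ℝ} (hr₁0 : 0 < r₁) (hB₁ : closedBall u₀ r₁ ⊆ e.target)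
    {θ : Multiplicative ℤ_[p] →* G} (hθ : Continuous θ)
    (hsrc : ∀ a : ℤ_[p], ∀ u ∈ closedBall u₀ r₁, θ (Multiplicative.ofAdd a) • e.symm u ∈ e.source)
    (hθ5 : ∀ a : ℤ_[p], ∀ u ∈ closedBall u₀ r₁, dist (act e θ a u) u < r₁ / 8)
    (hSV : ∀ η : ℝ≥0∞, 0 < η → ∃ N : ℕ, 0 < N ∧ ∫⁻ a, GV (d + 2) (act e θ a) u₀ r₁ N ∂μ ≤ η) :
    ∀ u ∈ ball u₀ (r₁ / 4), ∀ a, act e θ a u = u := by
  by_contra hcon
  push Not at hcon
  obtain ⟨u₁, hu₁b, b, hne⟩ := hcon
  -- the averaged map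
  set Γ : ℤ_[p] → (Fin (d + 1) → ℝ) → (Fin (d + 1) → ℝ) := fun a u =>
    act e θ a (clamp u₀ r₁ u) with hΓ
  have hact : ContinuousOn (fun q : ℤ_[p] × (Fin (d + 1) → ℝ) => act e θ q.1 q.2)
      (univ ×ˢ closedBall u₀ r₁) := act_continuousOn hθ hB₁ hsrc
  have hΓc : Continuous (fun q : ℤ_[p] × (Fin (d + 1) → ℝ) => Γ q.1 q.2) :=
    hact.comp_continuous (f := fun q : ℤ_[p] × (Fin (d + 1) → ℝ) => (q.1, clamp u₀ r₁ q.2))
      (continuous_fst.prodMk ((continuous_clamp u₀ r₁).comp continuous_snd))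
      (fun q => ⟨mem_univ _, clamp_mem hr₁0 _⟩)
  have hΓSV : ∀ η : ℝ≥0∞, 0 < η → ∃ N : ℕ, 0 < N ∧ ∫⁻ a, GV (d + 2) (Γ a) u₀ r₁ N ∂μ ≤ η := by
    intro η hη
    obtain ⟨N, hN, hle⟩ := hSV η hη
    refine ⟨N, hN, ?_⟩
    have h4 : ∀ a, GV (d + 2) (Γ a) u₀ r₁ N = GV (d + 2) (act e θ a) u₀ r₁ N := by
      intro a
      apply GV_congr hr₁0 hN
      intro u hu
      rw [hΓ]
      simp only
      rw [clamp_of_mem hr₁0 hu]
    simp_rw [h4]
    exact hle
  -- the invariant set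
  set U := invSet e θ u₀ r₁ with hU
  have hUo : IsOpen U := invSet_isOpen hθ hB₁ hsrc
  have hUQ : U ⊆ ball u₀ r₁ := fun u hu => hu.1
  have hUb : Bornology.IsBounded U := isBounded_ball.subset hUQ
  have hUcl : closure U ⊆ closedBall u₀ r₁ :=
    closure_minimal (hUQ.trans ball_subset_closedBall) isClosed_closedBall
  have hUhalf : ball u₀ (r₁ / 2) ⊆ U := by
    intro u hu
    rw [mem_ball] at hu
    have hu' : u ∈ closedBall u₀ r₁ := by rw [mem_closedBall]; linarith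
    refine ⟨by rw [mem_ball]; linarith, fun a => ?_⟩
    rw [mem_ball]
    have h3 := hθ5 a u hu'
    have h4 := dist_triangle (act e θ a u) u u₀
    linarith
  have hΓg : ∀ a b, ∀ u ∈ (cpre hθ hr₁0 hB₁ hsrc).U,
      Γ a ((cpre hθ hr₁0 hB₁ hsrc).g b u) = Γ (a + b) u := by
    intro a b u hu
    have hu' : u ∈ U := hu
    have hub : act e θ b u ∈ closedBall u₀ r₁ := ball_subset_closedBall (hu'.2 b)
    have huc : u ∈ closedBall u₀ r₁ := ball_subset_closedBall hu'.1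
    rw [cpre_g hθ hr₁0 hB₁ hsrc huc, hΓ]
    simp only
    rw [clamp_of_mem hr₁0 hub, clamp_of_mem hr₁0 huc, act_add hsrc a b huc]
  have hΓ0 : ∀ u ∈ closedBall u₀ r₁, Γ 0 u = u := by
    intro u hu
    rw [hΓ]
    simp only
    rw [clamp_of_mem hr₁0 hu, act_zero hB₁ hu]
  obtain ⟨F, hFc, ⟨H, Z, hZ, hHtd, hgood⟩, hFinv, hFclose, -⟩ := avg_good3
    (cpre hθ hr₁0 hB₁ hsrc) hr₁0 (fun u hu => ball_subset_closedBall (hUQ hu)) hΓc hΓg
    (fun u hu v hv huv => by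
      rw [hΓ0 u hu, hΓ0 v hv] at huv
      exact huv)
    hΓSV
  have hFclose' : ∀ u ∈ closedBall u₀ r₁, dist (F u) u ≤ r₁ / 8 := by
    intro u hu
    apply hFclose
    intro a
    rw [hΓ]
    simp only
    rw [clamp_of_mem hr₁0 hu]
    exact (hθ5 a u hu).le
  have hFact : ∀ a, ∀ u ∈ U, F (act e θ a u) = F u := by
    intro b u hu
    apply hFinv u (act e θ b u) b
    intro a
    rw [hΓ]
    simp only
    have hub : act e θ b u ∈ closedBall u₀ r₁ := ball_subset_closedBall (hu.2 b)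
    have huc : u ∈ closedBall u₀ r₁ := ball_subset_closedBall hu.1
    rw [clamp_of_mem hr₁0 hub, clamp_of_mem hr₁0 huc, act_add hsrc a b huc]
  have hfr : ∀ u ∈ frontier U, u ∈ closedBall u₀ r₁ ∧ r₁ / 2 ≤ dist u u₀ := by
    intro u hu
    refine ⟨hUcl (frontier_subset_closure hu), ?_⟩
    by_contra hlt
    push Not at hlt
    rw [hUo.frontier_eq] at hu
    exact hu.2 (hUhalf (mem_ball.mpr hlt))
  -- the moved points
  set M : Set (Fin (d + 1) → ℝ) := (U ∩ ball u₀ (r₁ / 4)) ∩ {u | ∃ a, act e θ a u ≠ u} with hM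
  have hMo : IsOpen M := by
    have h3 : IsOpen (U ∩ ball u₀ (r₁ / 4)) := hUo.inter isOpen_ball
    have h4 : M = ⋃ a : ℤ_[p], ((U ∩ ball u₀ (r₁ / 4)) ∩
        (fun u => act e θ a u - u) ⁻¹' {0}ᶜ) := by
      ext u
      simp only [hM, mem_inter_iff, mem_iUnion, mem_preimage, mem_compl_iff, mem_singleton_iff,
        sub_eq_zero]
      constructor
      · rintro ⟨h5, a, ha⟩; exact ⟨a, h5, ha⟩
      · rintro ⟨a, h5, ha⟩; exact ⟨h5, a, ha⟩
    rw [h4]
    apply isOpen_iUnion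
    intro a
    apply ContinuousOn.isOpen_inter_preimage _ h3 isOpen_compl_singleton
    have h5 : Continuous (fun x : Fin (d + 1) → ℝ => ((a, x) : ℤ_[p] × (Fin (d + 1) → ℝ))) := by
      fun_prop
    have h6 : ContinuousOn (fun u => act e θ a u) (closedBall u₀ r₁) :=
      hact.comp h5.continuousOn (fun x hx => ⟨mem_univ _, hx⟩)
    exact (h6.sub continuousOn_id).mono
      (inter_subset_left.trans (hUQ.trans ball_subset_closedBall))
  have hMne : u₁ ∈ M := by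
    refine ⟨⟨hUhalf (ball_subset_ball (by linarith) hu₁b), hu₁b⟩, b, hne⟩
  obtain ⟨u', hu', hyZ⟩ : ∃ y ∈ M, y ∉ Z := by
    by_contra hcon
    push Not at hcon
    have h3 : volume M ≤ volume Z := measure_mono hcon
    have h4 : 0 < volume M := hMo.measure_pos volume ⟨_, hMne⟩
    rw [hZ] at h3
    exact absurd h3 (not_le.mpr h4)
  have hu'U : u' ∈ U := hu'.1.1
  have hu'b : dist u' u₀ < r₁ / 4 := hu'.1.2
  have hu'c : u' ∈ closedBall u₀ r₁ := ball_subset_closedBall (hUQ hu'U)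
  have hdeg : HasDeg volume U F u' 1 := by
    apply HasDeg.homotopy volume hUo hUb continuousOn_id hFc.continuousOn
      (HasDeg.id volume hUo hUb hu'U)
    intro u hu t ht heq
    obtain ⟨huB, hud⟩ := hfr u hu
    have h4 := hFclose' u huB
    simp only [id] at heq
    have h5 : u - u' = -(t • (F u - u)) := by
      have : (1 - t) • (u - u') + t • (F u - u') = (u - u') + t • (F u - u) := by module
      rw [this] at heq
      exact eq_neg_of_add_eq_zero_left heq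
    have h6 : dist u u' ≤ r₁ / 8 := by
      rw [dist_eq_norm, h5, norm_neg, norm_smul, Real.norm_of_nonneg ht.1, ← dist_eq_norm]
      calc t * dist (F u) u ≤ 1 * (r₁ / 8) := mul_le_mul ht.2 h4 dist_nonneg zero_le_one
        _ = r₁ / 8 := one_mul _
    have h7 := dist_triangle u u' u₀
    linarith
  obtain ⟨k, hk⟩ := core_chart2 hθ hr₁0 hB₁ hsrc hFc hFact hHtd
    (by
      intro u hu heq
      apply hgood _ hyZ u hu heq
      by_contra hcon
      push Not at hcon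
      have huc : u ∈ closedBall u₀ r₁ := ball_subset_closedBall hu.1
      have hcon' : ∀ a, act e θ a u = u := by
        intro a
        rw [← cpre_g hθ hr₁0 hB₁ hsrc huc a]
        exact hcon a
      have h3 : F u = u := by
        have h4 : dist (F u) u ≤ 0 := by
          apply hFclose
          intro a
          rw [hΓ]
          simp only
          rw [clamp_of_mem hr₁0 huc, hcon' a, dist_self]
        exact dist_le_zero.mp h4
      rw [h3] at heq
      rw [heq] at hcon'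
      obtain ⟨a, ha⟩ := hu'.2
      exact ha (hcon' a)) hdeg
  have hp2 := hp.out.two_le
  have h3 : (1 : ℤ) = p * k := by exact_mod_cast hk
  have h4 : (p : ℤ) ∣ 1 := ⟨k, h3⟩
  have h5 := Int.le_of_dvd one_pos h4
  omega

theorem act_comp_mulHom (e : OpenPartialHomeomorph X (Fin (d + 1) → ℝ))
    (θ : Multiplicative ℤ_[p] →* G) (q a : ℤ_[p]) (u : Fin (d + 1) → ℝ) :
    act e (θ.comp (mulHom q)) a u = act e θ (q * a) u := rfl

/-- **The local theorem.** -/
theorem local3 {x₀ : X} (hx₀ : x₀ ∈ regPts (d + 1) X) {θ : Multiplicative ℤ_[p] →* G}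
    (hθ : Continuous θ) (hS : ∀ k : ℕ, SmallAt d μ (θ.comp (mulHom ((p : ℤ_[p]) ^ k))) x₀) :
    ∃ k : ℕ, ∀ᶠ x in 𝓝 x₀, ∀ a : ℤ_[p], θ (Multiplicative.ofAdd ((p : ℤ_[p]) ^ k * a)) • x = x := by
  obtain ⟨e, C, hxe, hC, hC'⟩ := hx₀
  set u₀ := e x₀ with hu₀
  have hu₀t : u₀ ∈ e.target := e.map_source hxe
  have hsu₀ : e.symm u₀ = x₀ := e.left_inv hxe
  -- a closed neighbourhood of the identity and a ball
  have h1 : (fun q : G × X => q.1 • q.2) ⁻¹' e.source ∈ 𝓝 ((1 : G), x₀) := by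
    apply (e.open_source.preimage continuous_smul).mem_nhds
    rw [mem_preimage, one_smul]
    exact hxe
  obtain ⟨V₁, hV₁, N₁, hN₁, hVN⟩ := mem_nhds_prod_iff.mp h1
  obtain ⟨V₀, hV₀, hV₀c, hV₀V₁⟩ := exists_mem_nhds_isClosed_subset hV₁
  have h2 : e.target ∩ e.symm ⁻¹' N₁ ∈ 𝓝 u₀ := by
    apply inter_mem (e.open_target.mem_nhds hu₀t)
    apply (e.symm.continuousAt hu₀t).preimage_mem_nhds
    rw [hsu₀]
    exact hN₁
  obtain ⟨r₀, hr₀, hball⟩ := Metric.nhds_basis_closedBall.mem_iff.mp h2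
  have hsrc₀ : ∀ g ∈ V₀, ∀ u ∈ closedBall u₀ r₀, g • e.symm u ∈ e.source := fun g hg u hu =>
    hVN (mk_mem_prod (hV₀V₁ hg) (hball hu).2)
  obtain ⟨k₁, hk₁⟩ := exists_pow_mem hθ hV₀
  obtain ⟨r, hr, hSV⟩ := hS k₁ e C hxe hC hC' r₀ hr₀ (fun u hu => (hball hu).1)
    (fun a u hu => hsrc₀ _ (hk₁ a) u hu)
  set r₁ := min r r₀ with hr₁
  have hr₁0 : 0 < r₁ := lt_min hr hr₀
  have hB₁ : closedBall u₀ r₁ ⊆ e.target := fun u hu =>
    (hball (closedBall_subset_closedBall (min_le_right _ _) hu)).1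
  have hsrc₁ : ∀ g ∈ V₀, ∀ u ∈ closedBall u₀ r₁, g • e.symm u ∈ e.source := fun g hg u hu =>
    hsrc₀ g hg u (closedBall_subset_closedBall (min_le_right _ _) hu)
  have hclose := unif_close e hB₁ hsrc₁ hV₀ (by positivity : 0 < r₁ / 8)
  obtain ⟨k₂, hk₂⟩ := exists_pow_mem hθ hclose
  set k := k₁ + k₂ with hk
  refine ⟨k, ?_⟩
  set θ' := θ.comp (mulHom ((p : ℤ_[p]) ^ k)) with hθ'
  have hθ'c : Continuous θ' := hθ.comp (continuous_mulHom _)
  have hmem : ∀ a : ℤ_[p], θ' (Multiplicative.ofAdd a) ∈ V₀ ∧ ∀ u ∈ closedBall u₀ r₁,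
      dist (e (θ' (Multiplicative.ofAdd a) • e.symm u)) (e ((1 : G) • e.symm u)) < r₁ / 8 := by
    intro a
    have h3 := hk₂ ((p : ℤ_[p]) ^ k₁ * a)
    have e1 : (p : ℤ_[p]) ^ k₂ * ((p : ℤ_[p]) ^ k₁ * a) = (p : ℤ_[p]) ^ k * a := by
      rw [hk]; ring
    rw [e1] at h3
    exact h3
  have key := local_core3 (μ := μ) e hr₁0 hB₁ hθ'c (fun a u hu => hsrc₁ _ (hmem a).1 u hu)
    (fun a u hu => by
      have := (hmem a).2 u hu
      rwa [one_smul, e.right_inv (hB₁ hu)] at this)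
    (fun η hη => by
      have hq0 : (p : ℝ≥0∞) ^ k₂ ≠ 0 := pow_ne_zero _ (by exact_mod_cast hp.out.ne_zero)
      have hqt : (p : ℝ≥0∞) ^ k₂ ≠ ∞ := ENNReal.pow_ne_top (ENNReal.natCast_ne_top p)
      obtain ⟨N, hN, hle⟩ := hSV r₁ hr₁0 (min_le_left _ _) (η / (p : ℝ≥0∞) ^ k₂)
        (ENNReal.div_pos hη.ne' hqt)
      refine ⟨N, hN, ?_⟩
      have e1 : ∀ a, act e θ' a =
          act e (θ.comp (mulHom ((p : ℤ_[p]) ^ k₁))) ((p : ℤ_[p]) ^ k₂ * a) := by
        intro a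
        funext u
        rw [hθ', act_comp_mulHom, act_comp_mulHom]
        congr 1
        rw [hk]; ring
      simp_rw [e1]
      refine (lintegral_pow_mul_le (ν := μ)
        (fun a => GV (d + 2) (act e (θ.comp (mulHom ((p : ℤ_[p]) ^ k₁))) a) u₀ r₁ N) k₂).trans ?_
      calc (p : ℝ≥0∞) ^ k₂ *
            ∫⁻ a, GV (d + 2) (act e (θ.comp (mulHom ((p : ℤ_[p]) ^ k₁))) a) u₀ r₁ N ∂μ
          ≤ (p : ℝ≥0∞) ^ k₂ * (η / (p : ℝ≥0∞) ^ k₂) := by gcongr
        _ = η := ENNReal.mul_div_cancel hq0 hqt)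
  have h3 : e.source ∩ e ⁻¹' (ball u₀ (r₁ / 4)) ∈ 𝓝 x₀ :=
    inter_mem (e.open_source.mem_nhds hxe)
      ((e.continuousAt hxe).preimage_mem_nhds (ball_mem_nhds _ (by positivity)))
  filter_upwards [h3] with x hx a
  have h4 := key (e x) hx.2 a
  have hxc : e x ∈ closedBall u₀ r₁ :=
    ball_subset_closedBall (ball_subset_ball (by linarith) hx.2)
  unfold act at h4
  rw [e.left_inv hx.1] at h4
  have h5 : θ' (Multiplicative.ofAdd a) • x ∈ e.source := by
    have := hsrc₁ _ (hmem a).1 (e x) hxc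
    rwa [e.left_inv hx.1] at this
  exact e.injOn h5 hx.1 h4

theorem descend3 {R : Set X} (hRo : IsOpen R) (hR : R ⊆ regPts (d + 1) X)
    {θ : Multiplicative ℤ_[p] →* G} (hθ : Continuous θ)
    (hS : ∀ x ∈ R, ∀ k : ℕ, SmallAt d μ (θ.comp (mulHom ((p : ℤ_[p]) ^ k))) x) {x₁ : X}
    (hx₁ : x₁ ∈ R) {l : ℕ}
    (hcl : x₁ ∈ closure {x | ∀ᶠ x' in 𝓝 x, ∀ a : ℤ_[p],
      θ (Multiplicative.ofAdd ((p : ℤ_[p]) ^ l * a)) • x' = x'}) :
    ∀ᶠ x in 𝓝 x₁, ∀ a : ℤ_[p], θ (Multiplicative.ofAdd ((p : ℤ_[p]) ^ l * a)) • x = x := by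
  obtain ⟨k, hPk⟩ := local3 (hR hx₁) hθ (hS x₁ hx₁)
  have hdesc : ∀ j : ℕ, (∀ᶠ x in 𝓝 x₁, ∀ a : ℤ_[p],
      θ (Multiplicative.ofAdd ((p : ℤ_[p]) ^ (l + j) * a)) • x = x) →
      ∀ᶠ x in 𝓝 x₁, ∀ a : ℤ_[p], θ (Multiplicative.ofAdd ((p : ℤ_[p]) ^ l * a)) • x = x := by
    intro j
    induction j with
    | zero =>
      intro h
      simpa using h
    | succ j ih =>
      intro h
      apply ih
      have h1 := uc_local3 hRo hR hx₁ (θ := θ.comp (mulHom ((p : ℤ_[p]) ^ (l + j))))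
        (hθ.comp (continuous_mulHom _)) (fun x hx => hS x hx (l + j))
      simp only [MonoidHom.comp_apply, mulHom_ofAdd] at h1
      apply h1
      · filter_upwards [h] with x hx a
        have := hx a
        rwa [← add_assoc, pow_succ, mul_assoc] at this
      · refine closure_mono ?_ hcl
        intro x hx
        filter_upwards [hx] with x' hx' a
        have := hx' ((p : ℤ_[p]) ^ j * a)
        rwa [← mul_assoc, ← pow_add] at this
  apply hdesc k
  filter_upwards [hPk] with x hx a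
  have := hx ((p : ℤ_[p]) ^ l * a)
  rwa [← mul_assoc, ← pow_add, add_comm k l] at this

/-- **The global theorem.** -/
theorem global3 {R : Set X} (hRo : IsOpen R) (hR : R ⊆ regPts (d + 1) X)
    (hdense : Dense R) (hconn : IsPreconnected R)
    {θ : Multiplicative ℤ_[p] →* G} (hθ : Continuous θ)
    (hS : ∀ x ∈ R, ∀ k : ℕ, SmallAt d μ (θ.comp (mulHom ((p : ℤ_[p]) ^ k))) x) :
    ∃ k : ℕ, ∀ a : ℤ_[p], ∀ x : X, θ (Multiplicative.ofAdd ((p : ℤ_[p]) ^ k * a)) • x = x := by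
  rcases R.eq_empty_or_nonempty with hem | ⟨x₀, hx₀⟩
  · refine ⟨0, fun a x => ?_⟩
    have hX : IsEmpty X := by
      rw [hem] at hdense
      by_contra hne
      rw [not_isEmpty_iff] at hne
      exact absurd hdense.nonempty not_nonempty_empty
    exact (hX.false x).elim
  obtain ⟨k, hk⟩ := local3 (hR hx₀) hθ (hS x₀ hx₀)
  refine ⟨k, fun a x => ?_⟩
  set O : Set X := {x | ∀ᶠ x' in 𝓝 x, ∀ a : ℤ_[p],
    θ (Multiplicative.ofAdd ((p : ℤ_[p]) ^ k * a)) • x' = x'} with hO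
  have hOo : IsOpen O := isOpen_setOfPred_eventually_nhds
  have hsub : R ⊆ O := by
    apply hconn.subset_of_closure_inter_subset hOo ⟨x₀, hx₀, hk⟩
    rintro x ⟨hxc, hxr⟩
    exact descend3 hRo hR hθ hS hxr hxc
  have hcl : IsClosed {x : X | ∀ a : ℤ_[p], θ (Multiplicative.ofAdd ((p : ℤ_[p]) ^ k * a)) • x = x} :=
    isClosed_fixed (θ.comp (mulHom ((p : ℤ_[p]) ^ k)))
  exact closure_minimal (fun x hx => (hsub hx).self_of_nhds) hcl (hdense x) a

end Pool.Agent.Helper3.HS
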