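import Pool.Agent.Helper3.HS.Pull
import Pool.Agent.Helper94.HS3.Local3

/-!
# The slice variation and the integral of the oscillation at one scale
-/

set_option autoImplicit false
set_option linter.unusedSectionVars false
set_option linter.unusedVariables false

open Set MeasureTheory Metric Filter Topology
open scoped NNReal ENNReal

namespace Pool.Agent.Helper3.HS

variable {d : ℕ}

theorem measurable_osc {X : Type*} [MetricSpace X] [MeasurableSpace X] [BorelSpace X] (f : X → X)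
    (W : Set X) (h : ℝ) : Measurable (fun y => Metric.ediam (f '' (ball y h ∩ W))) := by
  apply LowerSemicontinuous.measurable
  intro y c hc
  have hex : ∃ z₁ ∈ ball y h ∩ W, ∃ z₂ ∈ ball y h ∩ W, c < edist (f z₁) (f z₂) := by
    by_contra hcon
    push Not at hcon
    apply absurd hc
    rw [not_lt]
    apply Metric.ediam_le
    rintro _ ⟨z₁, h₁, rfl⟩ _ ⟨z₂, h₂, rfl⟩
    exact hcon z₁ h₁ z₂ h₂
  obtain ⟨z₁, h₁, z₂, h₂, hlt⟩ := hex
  have ev : ∀ z : X, dist z y < h → ∀ᶠ y' in 𝓝 y, dist z y' < h := by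
    intro z hz
    have hc : Continuous (fun y' : X => dist z y') := continuous_const.dist continuous_id
    exact hc.continuousAt.eventually (gt_mem_nhds hz)
  filter_upwards [ev z₁ h₁.1, ev z₂ h₂.1] with y' g1 g2
  exact hlt.trans_le (Metric.edist_le_ediam_of_mem ⟨z₁, ⟨g1, h₁.2⟩, rfl⟩ ⟨z₂, ⟨g2, h₂.2⟩, rfl⟩)

/-- The slice variation is controlled by an integral of the oscillation. -/
theorem GV_le_osc {e : ℕ} {u₀ : Fin (d + 1) → ℝ} {r : ℝ} (hr : 0 < r) {N : ℕ} (hN : 0 < N)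
    {f : (Fin (d + 1) → ℝ) → (Fin (d + 1) → ℝ)} {g : (Fin (d + 1) → ℝ) → ℝ≥0∞} (hg : Measurable g)
    (h : ∀ u ∈ closedBall u₀ r, ∀ v ∈ closedBall u₀ r, ∀ w ∈ closedBall u₀ r,
      dist u v ≤ 2 * r / N → dist u w ≤ 2 * r / N → edist (f v) (f w) ≤ g u) :
    GV e f u₀ r N ≤ (d + 1) * (ENNReal.ofReal ((N / (2 * r)) ^ d) *
      ∫⁻ x in closedBall u₀ r, g x ^ e) := by
  have hN' : (0 : ℝ) < N := by exact_mod_cast hN
  have hh : 0 < 2 * r / N := by positivity
  have hsm : ∀ i, Measurable (fun q : ℝ × (Fin d → ℝ) => slc i q.1 q.2) := fun i =>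
    (continuous_slc i).measurable
  set κ : ℝ≥0∞ := ENNReal.ofReal ((N / (2 * r)) ^ d) with hκ
  have hκt : κ ≠ ∞ := ENNReal.ofReal_ne_top
  unfold GV
  have key : ∀ i : Fin (d + 1), ∫⁻ t in Icc (u₀ i - r) (u₀ i + r),
      ∑ c : Fin d → Fin N, gDiam f u₀ r N i t (fun k => (c k : ℕ)) ^ e ≤
      κ * ∫⁻ x in closedBall u₀ r, g x ^ e := by
    intro i
    have hpt : ∀ t ∈ Icc (u₀ i - r) (u₀ i + r),
        ∑ c : Fin d → Fin N, gDiam f u₀ r N i t (fun k => (c k : ℕ)) ^ e ≤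
        κ * ∫⁻ w in fullSlice u₀ r i, g (slc i t w) ^ e := by
      intro t ht
      have hcell : ∀ c : Fin d → Fin N, gDiam f u₀ r N i t (fun k => (c k : ℕ)) ^ e ≤
          κ * ∫⁻ w in cell (corner u₀ r i) (2 * r / N) (fun k => (c k : ℕ)),
            g (slc i t w) ^ e := by
        intro c
        set x := gDiam f u₀ r N i t (fun k => (c k : ℕ)) with hx
        set Q : Set (Fin d → ℝ) := cell (corner u₀ r i) (2 * r / N) (fun k => (c k : ℕ)) with hQ
        have hsub : Q ⊆ fullSlice u₀ r i := cell_subset hr i hN (fun k => (c k).2)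
        have hmem : ∀ w ∈ Q, slc i t w ∈ closedBall u₀ r := fun w hw =>
          slc_mem_closedBall hr ht (hsub hw)
        have hdQ : ∀ w ∈ Q, ∀ w' ∈ Q, dist (slc i t w) (slc i t w') ≤ 2 * r / N := by
          intro w hw w' hw'
          have h1 : dist w w' ≤ 2 * r / N := by
            rw [dist_pi_le_iff hh.le]
            intro k
            rw [hQ, cell, mem_Icc, Pi.le_def, Pi.le_def] at hw hw'
            have a1 := hw.1 k
            have a2 := hw.2 k
            have a3 := hw'.1 k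
            have a4 := hw'.2 k
            try simp only at a1 a2 a3 a4
            rw [Real.dist_eq, abs_le]
            constructor <;> linarith
          have h2 := edist_slc i t w w'
          rw [edist_dist, edist_dist] at h2
          have h3 := (ENNReal.ofReal_eq_ofReal_iff dist_nonneg dist_nonneg).mp h2
          rw [h3]
          exact h1
        have hle : ∀ w ∈ Q, x ≤ g (slc i t w) := by
          intro w hw
          apply Metric.ediam_le
          rintro _ ⟨v, hv, rfl⟩ _ ⟨v', hv', rfl⟩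
          exact h _ (hmem w hw) _ (hmem v hv) _ (hmem v' hv') (hdQ w hw v hv) (hdQ w hw v' hv')
        have hvol : volume Q = ENNReal.ofReal ((2 * r / N) ^ d) := by
          rw [hQ, cell, Real.volume_Icc_pi]
          have : ∀ k : Fin d, corner u₀ r i k + 2 * r / N * ((c k : ℕ) : ℝ) + 2 * r / N -
              (corner u₀ r i k + 2 * r / N * ((c k : ℕ) : ℝ)) = 2 * r / N := fun k => by ring
          simp_rw [this]
          rw [Finset.prod_const, Finset.card_univ, Fintype.card_fin, ENNReal.ofReal_pow hh.le]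
        have hQm : MeasurableSet Q := by rw [hQ, cell]; exact measurableSet_Icc
        have h1 : x ^ e * volume Q ≤ ∫⁻ w in Q, g (slc i t w) ^ e := by
          rw [← setLIntegral_const]
          exact setLIntegral_mono' hQm (fun w hw => pow_le_pow_left₀ zero_le (hle w hw) e)
        have h2 : κ * volume Q = 1 := by
          rw [hvol, hκ, ← ENNReal.ofReal_mul (by positivity), ← mul_pow]
          have : (N : ℝ) / (2 * r) * (2 * r / N) = 1 := by field_simp
          rw [this, one_pow, ENNReal.ofReal_one]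
        calc x ^ e = κ * (x ^ e * volume Q) := by
              rw [mul_left_comm, h2, mul_one]
          _ ≤ _ := by gcongr
      refine (Finset.sum_le_sum fun c _ => hcell c).trans ?_
      rw [← Finset.mul_sum]
      gcongr
      exact sum_cell_le hr i hN _
    calc ∫⁻ t in Icc (u₀ i - r) (u₀ i + r),
        ∑ c : Fin d → Fin N, gDiam f u₀ r N i t (fun k => (c k : ℕ)) ^ e
        ≤ ∫⁻ t in Icc (u₀ i - r) (u₀ i + r), κ * ∫⁻ w in fullSlice u₀ r i, g (slc i t w) ^ e :=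
          setLIntegral_mono' measurableSet_Icc hpt
      _ = κ * ∫⁻ t in Icc (u₀ i - r) (u₀ i + r), ∫⁻ w in fullSlice u₀ r i,
          g (slc i t w) ^ e := by
          rw [lintegral_const_mul' _ _ hκt]
      _ ≤ _ := by
          gcongr
          exact lintegral_slices hr i (hg.pow_const e)
  refine (Finset.sum_le_sum fun i _ => key i).trans ?_
  rw [Finset.sum_const, Finset.card_univ, Fintype.card_fin, nsmul_eq_mul]
  push_cast
  exact le_rfl

/-- If the averaged oscillation energy of the action is small at suitable scales, then the averaged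
slice variations become small. -/
theorem small_of_osc {X : Type*} [MetricSpace X] [MeasurableSpace X] [BorelSpace X]
    {G : Type*} [Group G] [MulAction G X] {p : ℕ} [Fact p.Prime] [MeasurableSpace ℤ_[p]]
    {ν : Measure ℤ_[p]} {θ : Multiplicative ℤ_[p] →* G} {x : X}
    (hJ : ∃ W ∈ 𝓝 x, ∀ ε : ℝ≥0∞, 0 < ε → ∃ h : ℝ, 0 < h ∧ h ≤ 1 ∧ ∫⁻ a,
      ∫⁻ y in W, Metric.ediam ((fun z => θ (Multiplicative.ofAdd a) • z) '' (ball y h ∩ W)) ^
        (d + 2) ∂(μH[((d + 1 : ℕ) : ℝ)] : Measure X) ∂ν ≤ ε * ENNReal.ofReal (h ^ d)) :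
    SmallAt d ν θ x := by
  classical
  intro e C hxe hC hC' r₀ hr₀ hB₀ hsrc₀
  obtain ⟨W, hW, hJ⟩ := hJ
  have h1 : e.symm ⁻¹' W ∈ 𝓝 (e x) := by
    apply (e.symm.continuousAt (e.map_source hxe)).preimage_mem_nhds
    rw [e.left_inv hxe]
    exact hW
  obtain ⟨r₁, hr₁, hball⟩ := Metric.nhds_basis_closedBall.mem_iff.mp h1
  refine ⟨min r₀ r₁, lt_min hr₀ hr₁, fun r hr hrr η hη => ?_⟩
  set B := closedBall (e x) r with hBdef
  have hBm : MeasurableSet B := measurableSet_closedBall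
  have hBt : B ⊆ e.target :=
    (closedBall_subset_closedBall (hrr.trans (min_le_left _ _))).trans hB₀
  have hBW : ∀ u ∈ B, e.symm u ∈ W := fun u hu =>
    hball (closedBall_subset_closedBall (hrr.trans (min_le_right _ _)) hu)
  have hsrc : ∀ a : ℤ_[p], ∀ u ∈ B, θ (Multiplicative.ofAdd a) • e.symm u ∈ e.source :=
    fun a u hu => hsrc₀ a u (closedBall_subset_closedBall (hrr.trans (min_le_left _ _)) hu)
  set ψ : (Fin (d + 1) → ℝ) → X := B.piecewise e.symm (fun _ => x) with hψ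
  have hψm : Measurable ψ := ContinuousOn.measurable_piecewise
    (e.symm.continuousOn.mono hBt) continuousOn_const hBm
  have hψB : ∀ u ∈ B, ψ u = e.symm u := fun u hu => piecewise_eq_of_mem _ _ _ hu
  -- the measure comparison
  have hmeas : (μH[((d + 1 : ℕ) : ℝ)].restrict B).map ψ ≤
      ((C : ℝ≥0∞) ^ ((d + 1 : ℕ) : ℝ)) • (μH[((d + 1 : ℕ) : ℝ)] : Measure X).restrict W := by
    rw [Measure.le_iff]
    intro A hA
    rw [Measure.map_apply hψm hA, Measure.restrict_apply (hψm hA), Measure.smul_apply,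
      Measure.restrict_apply hA, smul_eq_mul]
    have hsub : ψ ⁻¹' A ∩ B ⊆ e '' (A ∩ W ∩ e.source) := by
      rintro u ⟨huA, huB⟩
      rw [mem_preimage, hψB u huB] at huA
      exact ⟨e.symm u, ⟨⟨huA, hBW u huB⟩, e.map_target (hBt huB)⟩, e.right_inv (hBt huB)⟩
    refine (measure_mono hsub).trans ?_
    refine ((hC.mono inter_subset_right).hausdorffMeasure_image_le (Nat.cast_nonneg _)).trans ?_
    exact mul_le_mul' le_rfl (measure_mono inter_subset_left)
  have hCr : ((C : ℝ≥0∞) ^ ((d + 1 : ℕ) : ℝ)) = (C : ℝ≥0∞) ^ (d + 1) := ENNReal.rpow_natCast _ _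
  rw [hCr] at hmeas
  -- the constants
  obtain ⟨c, hc⟩ : ∃ c : ℝ, c = (C : ℝ) := ⟨_, rfl⟩
  have hc0 : 0 ≤ c := by rw [hc]; exact NNReal.coe_nonneg C
  set K : ℝ := (2 * r * c + 1) / (2 * r) with hK
  have hK0 : 0 < K := by positivity
  set A : ℝ≥0∞ := (d + 1) * (ENNReal.ofReal (K ^ d) *
    ((C : ℝ≥0∞) ^ (d + 2) * (C : ℝ≥0∞) ^ (d + 1))) with hA
  have hAt : A ≠ ∞ := by
    apply ENNReal.mul_ne_top
    · exact ENNReal.add_ne_top.mpr ⟨ENNReal.natCast_ne_top d, ENNReal.one_ne_top⟩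
    · apply ENNReal.mul_ne_top ENNReal.ofReal_ne_top
      exact ENNReal.mul_ne_top (ENNReal.pow_ne_top ENNReal.coe_ne_top)
        (ENNReal.pow_ne_top ENNReal.coe_ne_top)
  have hA1 : A + 1 ≠ 0 := by simp
  have hA1t : A + 1 ≠ ∞ := ENNReal.add_ne_top.mpr ⟨hAt, ENNReal.one_ne_top⟩
  obtain ⟨h, h0, h1', hle⟩ := hJ (η / (A + 1)) (ENNReal.div_pos hη.ne' hA1t)
  set N : ℕ := ⌊2 * r * c / h⌋₊ + 1 with hN
  have hNpos : 0 < N := Nat.succ_pos _
  have hN' : (0 : ℝ) < N := by exact_mod_cast hNpos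
  have hN1 : 2 * r * c / h < N := by
    rw [hN]; push_cast
    exact Nat.lt_floor_add_one _
  have hN2 : (N : ℝ) ≤ (2 * r * c + 1) / h := by
    rw [hN]; push_cast
    have h3 : (⌊2 * r * c / h⌋₊ : ℝ) ≤ 2 * r * c / h := Nat.floor_le (by positivity)
    have h4 : 1 ≤ 1 / h := by rw [le_div_iff₀ h0]; linarith
    rw [add_div]
    linarith
  refine ⟨N, hNpos, ?_⟩
  set E : ℤ_[p] → ℝ≥0∞ := fun a => ∫⁻ y in W,
    Metric.ediam ((fun z => θ (Multiplicative.ofAdd a) • z) '' (ball y h ∩ W)) ^ (d + 2)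
      ∂(μH[((d + 1 : ℕ) : ℝ)] : Measure X) with hE
  set κ : ℝ≥0∞ := ENNReal.ofReal ((N / (2 * r)) ^ d) with hκ
  set M : ℝ≥0∞ := (d + 1) * (κ * ((C : ℝ≥0∞) ^ (d + 2) * (C : ℝ≥0∞) ^ (d + 1))) with hM
  have hMt : M ≠ ∞ := by
    apply ENNReal.mul_ne_top
    · exact ENNReal.add_ne_top.mpr ⟨ENNReal.natCast_ne_top d, ENNReal.one_ne_top⟩
    · apply ENNReal.mul_ne_top ENNReal.ofReal_ne_top
      exact ENNReal.mul_ne_top (ENNReal.pow_ne_top ENNReal.coe_ne_top)
        (ENNReal.pow_ne_top ENNReal.coe_ne_top)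
  have hone : ∀ a, GV (d + 2) (act e θ a) (e x) r N ≤ M * E a := by
    intro a
    set gX : X → ℝ≥0∞ := fun y =>
      Metric.ediam ((fun z => θ (Multiplicative.ofAdd a) • z) '' (ball y h ∩ W)) with hgX
    have hgXm : Measurable gX := measurable_osc _ W h
    set g : (Fin (d + 1) → ℝ) → ℝ≥0∞ := fun u => C * gX (ψ u) with hg
    have hgm : Measurable g := (hgXm.comp hψm).const_mul _
    have hosc : ∀ u ∈ closedBall (e x) r, ∀ v ∈ closedBall (e x) r, ∀ w ∈ closedBall (e x) r,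
        dist u v ≤ 2 * r / N → dist u w ≤ 2 * r / N →
        edist (act e θ a v) (act e θ a w) ≤ g u := by
      intro u hu v hv w hw huv huw
      have hball' : ∀ v ∈ B, dist u v ≤ 2 * r / N → e.symm v ∈ ball (ψ u) h ∩ W := by
        intro v hv huv
        refine ⟨?_, hBW v hv⟩
        rw [mem_ball, hψB u hu, dist_comm]
        have h3 : dist (e.symm u) (e.symm v) ≤ c * dist u v := by
          rw [hc]
          exact hC'.dist_le_mul u (hBt hu) v (hBt hv)
        have h4 : c * dist u v ≤ c * (2 * r / N) := by gcongr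
        have h5 : c * (2 * r / N) < h := by
          rw [div_lt_iff₀ h0] at hN1
          have h6 : c * (2 * r / N) = 2 * r * c / N := by ring
          rw [h6, div_lt_iff₀ hN']
          linarith
        linarith
      have h3 := hC (hsrc a v hv) (hsrc a w hw)
      refine h3.trans ?_
      rw [hg]
      simp only
      gcongr
      exact Metric.edist_le_ediam_of_mem ⟨e.symm v, hball' v hv huv, rfl⟩
        ⟨e.symm w, hball' w hw huw, rfl⟩
    have hmain := GV_le_osc (e := d + 2) hr hNpos hgm hosc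
    refine hmain.trans ?_
    have hint : ∫⁻ u in B, g u ^ (d + 2) ≤
        (C : ℝ≥0∞) ^ (d + 2) * ((C : ℝ≥0∞) ^ (d + 1) * E a) := by
      have e1 : ∫⁻ u in B, g u ^ (d + 2) =
          (C : ℝ≥0∞) ^ (d + 2) * ∫⁻ u in B, gX (ψ u) ^ (d + 2) := by
        rw [← lintegral_const_mul' _ _ (ENNReal.pow_ne_top ENNReal.coe_ne_top)]
        congr 1
        funext u
        rw [hg, mul_pow]
      rw [e1]
      gcongr
      rw [← hausdorff_eq_volume]
      have e2 : ∫⁻ u in B, gX (ψ u) ^ (d + 2) ∂(μH[((d + 1 : ℕ) : ℝ)]) =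
          ∫⁻ y, gX y ^ (d + 2) ∂((μH[((d + 1 : ℕ) : ℝ)].restrict B).map ψ) := by
        rw [lintegral_map (hgXm.pow_const _) hψm]
      rw [e2]
      refine (lintegral_mono' hmeas le_rfl).trans ?_
      rw [lintegral_smul_measure, smul_eq_mul]
    calc ((d : ℝ≥0∞) + 1) * (κ * ∫⁻ u in B, g u ^ (d + 2))
        ≤ (d + 1) * (κ * ((C : ℝ≥0∞) ^ (d + 2) * ((C : ℝ≥0∞) ^ (d + 1) * E a))) := by gcongr
      _ = M * E a := by rw [hM]; ring
  have hNK : κ * ENNReal.ofReal (h ^ d) ≤ ENNReal.ofReal (K ^ d) := by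
    rw [hκ, ← ENNReal.ofReal_mul (by positivity), ← mul_pow]
    apply ENNReal.ofReal_le_ofReal
    apply pow_le_pow_left₀ (by positivity)
    rw [hK, div_mul_eq_mul_div]
    apply div_le_div_of_nonneg_right _ (by positivity)
    rw [le_div_iff₀ h0] at hN2
    exact hN2
  calc ∫⁻ a, GV (d + 2) (act e θ a) (e x) r N ∂ν ≤ ∫⁻ a, M * E a ∂ν := lintegral_mono hone
    _ = M * ∫⁻ a, E a ∂ν := lintegral_const_mul' _ _ hMt
    _ ≤ M * (η / (A + 1) * ENNReal.ofReal (h ^ d)) := by gcongr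
    _ = (d + 1) * ((κ * ENNReal.ofReal (h ^ d)) *
        ((C : ℝ≥0∞) ^ (d + 2) * (C : ℝ≥0∞) ^ (d + 1))) * (η / (A + 1)) := by rw [hM]; ring
    _ ≤ A * (η / (A + 1)) := by
        rw [hA]
        gcongr
    _ ≤ (A + 1) * (η / (A + 1)) := by gcongr; exact le_self_add
    _ = η := ENNReal.mul_div_cancel hA1 hA1t

/-- The same for the restriction of the action to an open subgroup. -/
theorem small_of_osc_pow {X : Type*} [MetricSpace X] [MeasurableSpace X] [BorelSpace X]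
    {G : Type*} [Group G] [MulAction G X] {p : ℕ} [hp : Fact p.Prime] [MeasurableSpace ℤ_[p]]
    [BorelSpace ℤ_[p]] {ν : Measure ℤ_[p]} [ν.IsAddHaarMeasure]
    {θ : Multiplicative ℤ_[p] →* G} {x : X}
    (hJ : ∃ W ∈ 𝓝 x, ∀ ε : ℝ≥0∞, 0 < ε → ∃ h : ℝ, 0 < h ∧ h ≤ 1 ∧ ∫⁻ a,
      ∫⁻ y in W, Metric.ediam ((fun z => θ (Multiplicative.ofAdd a) • z) '' (ball y h ∩ W)) ^
        (d + 2) ∂(μH[((d + 1 : ℕ) : ℝ)] : Measure X) ∂ν ≤ ε * ENNReal.ofReal (h ^ d)) (k : ℕ) :
    SmallAt d ν (θ.comp (mulHom ((p : ℤ_[p]) ^ k))) x := by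
  apply small_of_osc
  obtain ⟨W, hW, hJ⟩ := hJ
  refine ⟨W, hW, fun ε hε => ?_⟩
  have hq0 : (p : ℝ≥0∞) ^ k ≠ 0 := pow_ne_zero _ (by exact_mod_cast hp.out.ne_zero)
  have hqt : (p : ℝ≥0∞) ^ k ≠ ∞ := ENNReal.pow_ne_top (ENNReal.natCast_ne_top p)
  obtain ⟨h, h0, h1, hle⟩ := hJ (ε / (p : ℝ≥0∞) ^ k) (ENNReal.div_pos hε.ne' hqt)
  refine ⟨h, h0, h1, ?_⟩
  refine (lintegral_pow_mul_le (ν := ν) (fun a => ∫⁻ y in W,
    Metric.ediam ((fun z => θ (Multiplicative.ofAdd a) • z) '' (ball y h ∩ W)) ^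
        (d + 2) ∂(μH[((d + 1 : ℕ) : ℝ)] : Measure X)) k).trans ?_
  calc (p : ℝ≥0∞) ^ k * ∫⁻ a, ∫⁻ y in W,
        Metric.ediam ((fun z => θ (Multiplicative.ofAdd a) • z) '' (ball y h ∩ W)) ^
        (d + 2) ∂(μH[((d + 1 : ℕ) : ℝ)] : Measure X) ∂ν
      ≤ (p : ℝ≥0∞) ^ k * (ε / (p : ℝ≥0∞) ^ k * ENNReal.ofReal (h ^ d)) := by gcongr
    _ = ε * ENNReal.ofReal (h ^ d) := by
        rw [← mul_assoc, ENNReal.mul_div_cancel hq0 hqt]

end Pool.Agent.Helper3.HS
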